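import Pool.Agent.helper83.LS.Spec

set_option autoImplicit false

/-!
# MP_60c1a7_co, module AU: assembly of `un`
-/

namespace LSH

/-- AU. -/
theorem AU : AU_stmt := by
  rintro p q h₀ h t R d ⟨h1, h2, h3⟩ hq h4
  refine ⟨?_, ?_, ?_⟩
  · simp only [PT.shape, h1]
  · simp only [PT.pts, h2]
    exact (Finset.insert_val_of_notMem hq).symm
  · exact List.Pairwise.cons h4 h3

end LSH
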