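import Pool.Agent.helper83.LS.Spec2

set_option autoImplicit false

/-! ls:RL3b, from RL3a by reflection in a horizontal line -/

namespace LSH

theorem RL3b_fy (z : Pt) : fy (fy z) = z := by
  show (z.1, - -z.2) = z
  rw [neg_neg]

theorem RL3b_inj : Function.Injective fy := fun a b h => by
  have := congrArg fy h
  rwa [RL3b_fy, RL3b_fy] at this

theorem RL3b (hSM : SM_stmt) (hA : RL3a_stmt) : RL3b_stmt := by
  intro s t hs ht S w z hcard hgen hw hmin hz hzw hsec hlt
  have hmem : ∀ {x : Pt}, x ∈ S.image fy → fy x ∈ S := by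
    intro x hx
    obtain ⟨y, hy, rfl⟩ := Finset.mem_image.1 hx
    rw [RL3b_fy]
    exact hy
  obtain ⟨d, hd, hroot⟩ := hA s t hs ht (S.image fy) (fy w) (fy z)
    (by rw [Finset.card_image_of_injective S RL3b_inj]; exact hcard)
    (by
      intro a ha b hb hab
      have h1 := hgen (fy a) (hmem ha) (fy b) (hmem hb) fun h => hab (RL3b_inj h)
      exact ⟨h1.1, fun h => h1.2 (by show -a.2 = -b.2; rw [h])⟩)
    (Finset.mem_image_of_mem fy hw)
    (fun x hx => hmin (fy x) (hmem hx))
    (Finset.mem_image_of_mem fy hz)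
    (fun h => hzw (RL3b_inj h))
    (fun x hx hxw => hsec (fy x) (hmem hx) fun h => hxw (by rw [← h, RL3b_fy]))
    (by show -z.2 < -w.2; linarith)
  refine ⟨d.map fy false, ?_, ?_⟩
  · have h1 := hSM.2.2.2.2.1 _ _ _ hd
    have h2 : (S.image fy).image fy = S := by
      rw [Finset.image_image]
      have : fy ∘ fy = id := funext RL3b_fy
      rw [this, Finset.image_id]
    rwa [h2] at h1
  · rw [hSM.2.2.2.2.2.2, hroot, RL3b_fy]

end LSH
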